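import Pool.Agent.Lib_MP_95a0ff_lc.PolyG
import Pool.Agent.Lib_MP_95a0ff_lc.Ham
import Pool.Agent.Lib_MP_95a0ff_lc.SoundA
import Pool.Agent.Lib_MP_95a0ff_lc.CompA
import Pool.Agent.Lib_MP_95a0ff_lc.Geo
import Pool.Agent.Lib_MP_95a0ff_lc.GridSound
import Pool.Agent.Lib_MP_95a0ff_lc.GridComp

/-!
# The Euclidean Max-2-PSP is NP-hard in every dimension `s ≥ 2`
-/

namespace Pool.Agent.Results.MP_95a0ff_lc.EuclideanMax2PSPHard

open Pool.Agent.Bx81 Pool.Agent.Psp81

/-- Sanity check of the definition of a round-trip: the graphs with `IsTour` are exactly the edge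
sets of the Hamiltonian cycles of the complete graph in the sense of Mathlib. -/
theorem isTour_iff {n : ℕ} (H : SimpleGraph (Fin n)) : IsTour H ↔
    ∃ (v : Fin n) (p : (⊤ : SimpleGraph (Fin n)).Walk v v), p.IsHamiltonianCycle ∧
      ∀ x y, H.Adj x y ↔ s(x, y) ∈ p.edges :=
  isTour_iff_hamiltonian H

/-- Sanity check of the encoding: the string determines the instance. -/
theorem encode_injective {n n' s : ℕ} (hs : 1 ≤ s) {P : Fin n → Fin s → ℚ}
    {P' : Fin n' → Fin s → ℚ} {L L' : ℚ} (h : encode P L = encode P' L') :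
    ∃ e : n = n', (∀ i, P i = P' (Fin.cast e i)) ∧ L = L' :=
  encode_inj hs h

/-- **Question 1, proved**: for every fixed integer `s ≥ 2`, every language of `NP` reduces in
polynomial time to the decision version of the Euclidean Max-2-PSP in `ℝ^s`. -/
theorem result : ∀ s : ℕ, 2 ≤ s →
    ∀ (Γ : Type) [Fintype Γ] (L : Set (List Γ)), InNP L → Reduces L (Max2PSP s) := by
  intro s hs Γ _ L hL
  exact hard_of soundA compA stmtGeo gridSound gridComp hs L hL

end Pool.Agent.Results.MP_95a0ff_lc.EuclideanMax2PSPHard
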